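import Pool.Agent.Results.MP_ce47b3_al.RetractNotFree

set_option autoImplicit false

/-!
# Retracts of free algebras of multilinear varieties over arbitrary commutative rings

The starting file treats integral domains `k` and the free algebra of rank two. Here `k` is any
nonzero commutative ring and the free algebra has any rank at least two; the variety is cut out by
the same three monomials of degree four for all `k`.
-/

namespace Pool.Agent.Results.MP_ce47b3_al.AllRings

open Polynomial Pool.Agent.Results.MP_ce47b3_al.RetractNotFree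

universe u v w

variable {k : Type u} [CommRing k]

/-- over a nonzero commutative ring `B` is not generated by one element -/
theorem not_gen' [Nontrivial k] (b : B k) : ¬ ∀ x : B k, x ∈ subT b := by
  intro h
  obtain ⟨t, p, q, h1, -, -⟩ := h zB
  have h1 : 1 = t * pa k b := h1
  have hmu : IsUnit (pa k b) := IsUnit.of_mul_eq_one_right _ h1.symm
  obtain ⟨t', p', q', h1', h2', h3'⟩ := h yB
  have ht' : t' = 0 := by
    have h4 : t' * pa k b = 0 := h1'.symm
    exact hmu.mul_left_eq_zero.1 h4
  have hl : p' * lB (b * b) = 1 := by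
    have h5 : lB (yB : B k) = 1 := by simp [lB, yB]
    rw [h5, ht', C_0, zero_mul, zero_add] at h2'
    exact h2'.symm
  have hr : q' * rB (b * b) = 1 := by
    have h5 : rB (yB : B k) = 1 := by simp [rB, yB]
    rw [h5, ht', C_0, zero_mul, zero_add] at h3'
    exact h3'.symm
  have hul : IsUnit (lB (b * b)) := IsUnit.of_mul_eq_one_right _ hl
  have hur : IsUnit (rB (b * b)) := IsUnit.of_mul_eq_one_right _ hr
  have e1 : IsNilpotent ((lB (b * b)).coeff 1) :=
    (Polynomial.isUnit_iff_coeff_isUnit_isNilpotent.1 hul).2 1 one_ne_zero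
  have e2 : IsNilpotent ((rB (b * b)).coeff 1) :=
    (Polynomial.isUnit_iff_coeff_isUnit_isNilpotent.1 hur).2 1 one_ne_zero
  have f1 : (lB (b * b)).coeff 1 = pa k b * pa k b + pa k b * pc k b := by
    simp [lB]
  have f2 : (rB (b * b)).coeff 1 = pa k b * pc k b := by
    simp [rB]
  have e3 : IsNilpotent (pa k b * pa k b) := by
    have := (Commute.all _ _).isNilpotent_sub e1 e2
    rwa [f1, f2, add_sub_cancel_right] at this
  exact e3.not_isUnit (hmu.mul hmu)

/-- over a nonzero commutative ring `B` is not free on any set -/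
theorem B_not_free' [Nontrivial k] {Y : Type w} (j : Y → B k) :
    ¬ IsFreeOn k (theIds k) (B k) j := by
  classical
  intro h
  by_cases hY : ∃ y1 y2 : Y, y1 ≠ y2
  · obtain ⟨y1, y2, hne⟩ := hY
    obtain ⟨φ, hφ, -⟩ := h.univ (Z0 k) Z0_inVariety (fun y => toZ (if y = y1 then 1 else 0))
    obtain ⟨ψ, hψ, -⟩ := h.univ (Z0 k) Z0_inVariety (fun y => toZ (if y = y2 then 1 else 0))
    have a1 : pa k (j y1) * ofZ (φ zB) = 1 := by
      rw [← ofZ_smul, ← hom_Z0, hφ y1, ofZ_toZ, if_pos rfl]
    have a2 : pa k (j y2) * ofZ (φ zB) = 0 := by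
      rw [← ofZ_smul, ← hom_Z0, hφ y2, ofZ_toZ, if_neg (fun h => hne h.symm)]
    have a3 : pa k (j y2) * ofZ (ψ zB) = 1 := by
      rw [← ofZ_smul, ← hom_Z0, hψ y2, ofZ_toZ, if_pos rfl]
    have a4 : pa k (j y2) = 0 := by
      calc pa k (j y2) = pa k (j y2) * (pa k (j y1) * ofZ (φ zB)) := by rw [a1, mul_one]
        _ = pa k (j y1) * (pa k (j y2) * ofZ (φ zB)) := by ring
        _ = 0 := by rw [a2, mul_zero]
    rw [a4, zero_mul] at a3
    exact zero_ne_one a3
  · push Not at hY
    have : ∃ b : B k, ∀ y, j y ∈ subT b := by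
      rcases isEmpty_or_nonempty Y with hE | ⟨⟨y0⟩⟩
      · exact ⟨0, fun y => (hE.false y).elim⟩
      · exact ⟨j y0, fun y => by rw [hY y y0]; exact mem_subT _⟩
    obtain ⟨b, hb⟩ := this
    exact not_gen' b (fun x => mem_of_gen h (subT b) hb x)

/-- every algebra over the zero ring is free on the empty set -/
theorem free_of_subsingleton [Subsingleton k] (I : Set (FreeNonUnitalNonAssocAlgebra k ℕ))
    (A : Type u) [NonUnitalNonAssocRing A] [Module k A] [IsScalarTower k A A]
    [SMulCommClass k A A] : IsFreeOn k I A (fun x : PEmpty.{w + 1} => x.elim) := by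
  have hz : ∀ (A : Type u) [NonUnitalNonAssocRing A] [Module k A] (a : A), a = 0 := by
    intro A _ _ a
    rw [← one_smul k a, Subsingleton.elim (1 : k) 0, zero_smul]
  refine ⟨fun f _ v => hz A _, fun A' _ _ _ _ _ v => ⟨0, fun x => x.elim, fun φ _ => ?_⟩⟩
  ext x
  rw [hz A' (φ x)]
  rfl

/-- The algebra `F` has an idempotent endomorphism whose image is not free, on any set, in the
variety cut out by `I`. -/
def HasNonfreeRetract.{y, z} (k : Type y) [CommRing k] (I : Set (FreeNonUnitalNonAssocAlgebra k ℕ))
    (F : Type y) [NonUnitalNonAssocRing F] [Module k F] [IsScalarTower k F F]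
    [SMulCommClass k F F] : Prop :=
  ∃ e : F →ₙₐ[k] F, (∀ x, e (e x) = e x) ∧
    ∀ (Y : Type z) (j : Y → NonUnitalAlgHom.range e), ¬ IsFreeOn k I (NonUnitalAlgHom.range e) j

/-- Some variety of `k`-algebras cut out by multilinear identities has a free algebra with a retract
that is not free. -/
def HasExample.{y, z} (k : Type y) [CommRing k] : Prop :=
  ∃ I : Set (FreeNonUnitalNonAssocAlgebra k ℕ), (∀ f ∈ I, IsMultilinear k f) ∧
    ∃ (F : Type y) (_ : NonUnitalNonAssocRing F) (_ : Module k F) (_ : IsScalarTower k F F)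
      (_ : SMulCommClass k F F) (X : Type) (ι : X → F), IsFreeOn k I F ι ∧
      HasNonfreeRetract.{y, z} k I F

theorem main [Nontrivial k] (X : Type v) [Nontrivial X] (F : Type u) [NonUnitalNonAssocRing F]
    [Module k F] [IsScalarTower k F F] [SMulCommClass k F F] (ι : X → F)
    (hι : IsFreeOn k (theIds k) F ι) : HasNonfreeRetract.{u, w} k (theIds k) F := by
  classical
  obtain ⟨x0, x1, hne⟩ := exists_pair_ne X
  have hF := hι.mem
  obtain ⟨φ, hφ, -⟩ := hι.univ (B k) B_inVariety
    (fun x => if x = x0 then zB else if x = x1 then yB else 0)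
  set z : F := ι x0 with hz
  set y : F := ι x1 with hy
  have h1 : φ z = zB := by
    rw [hz, hφ x0, if_pos rfl]
  have h2 : φ y = yB := by
    rw [hy, hφ x1, if_neg hne.symm, if_pos rfl]
  have hps : ∀ x, φ (secH hF z y x) = x := pi_sec φ z y h1 h2
  refine ⟨(secH hF z y).comp φ, fun x => ?_, fun Y j hj => ?_⟩
  · show secH hF z y (φ (secH hF z y (φ x))) = secH hF z y (φ x)
    rw [hps]
  · refine B_not_free' (fun t => (φ.comp (NonUnitalSubalgebraClass.subtype _)) (j t))
      (transport hj (φ.comp (NonUnitalSubalgebraClass.subtype _))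
        (NonUnitalAlgHom.codRestrict (secH hF z y) _ (fun b => ?_)) (fun x => ?_) (fun x => ?_))
    · refine ⟨secH hF z y b, ?_⟩
      show secH hF z y (φ (secH hF z y b)) = secH hF z y b
      rw [hps]
    · exact hps x
    · apply Subtype.ext
      obtain ⟨_, a, rfl⟩ := x
      show secH hF z y (φ (secH hF z y (φ a))) = secH hF z y (φ a)
      rw [hps]

/-- **Main theorem.** Let `k` be any nonzero commutative ring and let `V` be the variety of
`k`-algebras defined by the three multilinear monomial identities `(x0 x1)(x2 x3) = 0`,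
`x0 ((x1 x2) x3) = 0` and `(x0 (x1 x2)) x3 = 0` of degree four (the same for all `k`).

(1) `V` is cut out by multilinear identities and the free algebras of `V` exist.

(2) Every free algebra of `V` on a set `X` with at least two elements has an idempotent
endomorphism whose image is not free in `V` on any set.

(3) A commutative ring `k` admits a variety cut out by multilinear identities with a retract of a
free algebra that is not free if and only if `k` is not the zero ring. -/
theorem result :
    (∀ (k : Type u) [CommRing k] [Nontrivial k],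
      (∀ f ∈ theIds k, IsMultilinear k f) ∧
      (∀ X : Type, IsFreeOn k (theIds k) (FreeV (theIds k) X)
        (fun x : X => mkHom (theIds k) X (FreeNonUnitalNonAssocAlgebra.of k x))) ∧
      ∀ (X : Type v) [Nontrivial X] (F : Type u) [NonUnitalNonAssocRing F] [Module k F]
        [IsScalarTower k F F] [SMulCommClass k F F] (ι : X → F), IsFreeOn k (theIds k) F ι →
        HasNonfreeRetract.{u, w} k (theIds k) F) ∧
    (∀ (k : Type u) [CommRing k], HasExample.{u, w} k ↔ Nontrivial k) := by
  refine ⟨fun k _ _ => ⟨theIds_multilinear k, freeV_isFree (theIds k),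
    fun X _ F _ _ _ _ ι hι => main X F ι hι⟩, fun k _ => ?_⟩
  constructor
  · rintro ⟨I, -, F, _, _, _, _, X, ι, -, e, -, he⟩
    by_contra hk
    rw [not_nontrivial_iff_subsingleton] at hk
    exact he _ _ (free_of_subsingleton I (NonUnitalAlgHom.range e))
  · intro hk
    exact ⟨theIds k, theIds_multilinear k, FreeV (theIds k) Bool, inferInstance, inferInstance,
      inferInstance, inferInstance, Bool, _, freeV_isFree (theIds k) Bool,
      main Bool _ _ (freeV_isFree (theIds k) Bool)⟩

end Pool.Agent.Results.MP_ce47b3_al.AllRings
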