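import Pool.Agent.Results.MP_ce47b3_al.RetractNotFree

/-!
# Retracts of relatively free algebras: a variety with rank threshold two

Let `k` be an integral domain and `V` the variety of `k`-algebras defined by the three multilinear
identities `(x0 x1)(x2 x3) = x0 ((x1 x2) x3) = (x0 (x1 x2)) x3 = 0`. All retracts of `V`-free
algebras of rank at most one are trivial (`0` or everything). Every `V`-free algebra of rank at
least two has retracts `R_d`, `d ∈ k`, such that `R_d` is `V`-free if and only if `d = 0`, and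
`R_d ≅ R_d'` if and only if `d` and `d'` are associates. So over `ℤ` it has infinitely many pairwise
non-isomorphic retracts that are not `V`-free.
-/

set_option autoImplicit false

namespace Pool.Agent.Results.MP_ce47b3_al.RankThreshold

open Polynomial
open Pool.Agent.Results.MP_ce47b3_al.RetractNotFree

universe u v w

noncomputable section Model

/-- The algebra `D_d`: quadruples `(a, c, f, g)`; think of `c` as a common constant term of the two
polynomials `c + X f` and `c + X g`. -/
def D (k : Type u) [CommRing k] (_ : k) : Type u := k × k × k[X] × k[X]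

variable {k : Type u} [CommRing k] {d : k}

instance : AddCommGroup (D k d) := inferInstanceAs (AddCommGroup (k × k × k[X] × k[X]))

instance : Module k (D k d) := inferInstanceAs (Module k (k × k × k[X] × k[X]))

/-- First entry. -/
def qa (x : D k d) : k := x.1
/-- Second entry. -/
def qc (x : D k d) : k := x.2.1
/-- Third entry. -/
def qf (x : D k d) : k[X] := x.2.2.1
/-- Fourth entry. -/
def qg (x : D k d) : k[X] := x.2.2.2

/-- Build an element. -/
def mkD (d a c : k) (f g : k[X]) : D k d := (a, c, f, g)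


theorem D_ext {x y : D k d} (h1 : qa x = qa y) (h2 : qc x = qc y) (h3 : qf x = qf y)
    (h4 : qg x = qg y) : x = y := Prod.ext h1 (Prod.ext h2 (Prod.ext h3 h4))

@[simp] theorem qa_mk (a c : k) (f g : k[X]) : qa (mkD d a c f g) = a := rfl
@[simp] theorem qc_mk (a c : k) (f g : k[X]) : qc (mkD d a c f g) = c := rfl
@[simp] theorem qf_mk (a c : k) (f g : k[X]) : qf (mkD d a c f g) = f := rfl
@[simp] theorem qg_mk (a c : k) (f g : k[X]) : qg (mkD d a c f g) = g := rfl
@[simp] theorem qa_add (x y : D k d) : qa (x + y) = qa x + qa y := rfl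
@[simp] theorem qc_add (x y : D k d) : qc (x + y) = qc x + qc y := rfl
@[simp] theorem qf_add (x y : D k d) : qf (x + y) = qf x + qf y := rfl
@[simp] theorem qg_add (x y : D k d) : qg (x + y) = qg x + qg y := rfl
@[simp] theorem qa_zero : qa (0 : D k d) = 0 := rfl
@[simp] theorem qc_zero : qc (0 : D k d) = 0 := rfl
@[simp] theorem qf_zero : qf (0 : D k d) = 0 := rfl
@[simp] theorem qg_zero : qg (0 : D k d) = 0 := rfl
@[simp] theorem qa_neg (x : D k d) : qa (-x) = -qa x := rfl
@[simp] theorem qc_neg (x : D k d) : qc (-x) = -qc x := rfl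
@[simp] theorem qf_neg (x : D k d) : qf (-x) = -qf x := rfl
@[simp] theorem qg_neg (x : D k d) : qg (-x) = -qg x := rfl
@[simp] theorem qa_smul (r : k) (y : D k d) : qa (r • y) = r * qa y := rfl
@[simp] theorem qc_smul (r : k) (y : D k d) : qc (r • y) = r * qc y := rfl
@[simp] theorem qf_smul (r : k) (y : D k d) : qf (r • y) = C r * qf y := by
  rw [← smul_eq_C_mul]; rfl
@[simp] theorem qg_smul (r : k) (y : D k d) : qg (r • y) = C r * qg y := by
  rw [← smul_eq_C_mul]; rfl

instance : Mul (D k d) :=
  ⟨fun x y => mkD d 0 (qa x * qa y)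
    (C (d * (qa x * qa y)) + C (qa x) * (C (qc y) + X * qf y))
    (C (qa y) * (C (qc x) + X * qg x))⟩

@[simp] theorem qa_mul (x y : D k d) : qa (x * y) = 0 := rfl
@[simp] theorem qc_mul (x y : D k d) : qc (x * y) = qa x * qa y := rfl
@[simp] theorem qf_mul (x y : D k d) : qf (x * y) =
    C (d * (qa x * qa y)) + C (qa x) * (C (qc y) + X * qf y) := rfl
@[simp] theorem qg_mul (x y : D k d) : qg (x * y) = C (qa y) * (C (qc x) + X * qg x) := rfl

instance : NonUnitalNonAssocRing (D k d) :=
  { (inferInstance : AddCommGroup (D k d)), (inferInstance : Mul (D k d)) with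
    left_distrib := by
      intro a b c
      apply D_ext
      · change (0 : k) = 0 + 0
        simp
      · change qa a * (qa b + qa c) = qa a * qa b + qa a * qa c
        ring
      · change C (d * (qa a * (qa b + qa c))) +
          C (qa a) * (C (qc b + qc c) + X * (qf b + qf c)) =
          (C (d * (qa a * qa b)) + C (qa a) * (C (qc b) + X * qf b)) +
          (C (d * (qa a * qa c)) + C (qa a) * (C (qc c) + X * qf c))
        simp only [C_add, C_mul]
        ring
      · change C (qa b + qa c) * (C (qc a) + X * qg a) =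
          C (qa b) * (C (qc a) + X * qg a) + C (qa c) * (C (qc a) + X * qg a)
        simp only [C_add, C_mul]
        ring
    right_distrib := by
      intro a b c
      apply D_ext
      · change (0 : k) = 0 + 0
        simp
      · change (qa a + qa b) * qa c = qa a * qa c + qa b * qa c
        ring
      · change C (d * ((qa a + qa b) * qa c)) +
          C (qa a + qa b) * (C (qc c) + X * qf c) =
          (C (d * (qa a * qa c)) + C (qa a) * (C (qc c) + X * qf c)) +
          (C (d * (qa b * qa c)) + C (qa b) * (C (qc c) + X * qf c))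
        simp only [C_add, C_mul]
        ring
      · change C (qa c) * (C (qc a + qc b) + X * (qg a + qg b)) =
          C (qa c) * (C (qc a) + X * qg a) + C (qa c) * (C (qc b) + X * qg b)
        simp only [C_add, C_mul]
        ring
    zero_mul := by
      intro a
      apply D_ext
      · rfl
      · change (0 : k) * qa a = 0
        simp
      · change C (d * ((0 : k) * qa a)) + C (0 : k) * (C (qc a) + X * qf a) = 0
        simp
      · change C (qa a) * (C (0 : k) + X * 0) = 0
        simp
    mul_zero := by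
      intro a
      apply D_ext
      · rfl
      · change qa a * (0 : k) = 0
        simp
      · change C (d * (qa a * 0)) + C (qa a) * (C (0 : k) + X * 0) = 0
        simp
      · change C (0 : k) * (C (qc a) + X * qg a) = 0
        simp }

instance : IsScalarTower k (D k d) (D k d) := by
  constructor
  intro r a b
  apply D_ext
  · change (0 : k) = r * 0
    simp
  · change (r * qa a) * qa b = r * (qa a * qa b)
    ring
  · change C (d * ((r * qa a) * qa b)) + C (r * qa a) * (C (qc b) + X * qf b) =
      qf (r • (a * b))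
    rw [qf_smul, qf_mul]
    simp only [C_mul]
    ring
  · change C (qa b) * (C (r * qc a) + X * qg (r • a)) = qg (r • (a * b))
    rw [qg_smul, qg_smul, qg_mul]
    simp only [C_mul]
    ring

instance : SMulCommClass k (D k d) (D k d) := by
  constructor
  intro r a b
  apply D_ext
  · change r * 0 = (0 : k)
    simp
  · change r * (qa a * qa b) = qa a * (r * qa b)
    ring
  · change qf (r • (a * b)) =
      C (d * (qa a * (r * qa b))) + C (qa a) * (C (r * qc b) + X * qf (r • b))
    rw [qf_smul, qf_smul, qf_mul]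
    simp only [C_mul]
    ring
  · change qg (r • (a * b)) = C (r * qa b) * (C (qc a) + X * qg a)
    rw [qg_smul, qg_mul]
    simp only [C_mul]
    ring

theorem D_inVariety : InVariety k (theIds k) (D k d) := by
  rw [inVariety_iff]
  refine ⟨fun a b c e => ?_, fun a b c e => ?_, fun a b c e => ?_⟩ <;>
    apply D_ext <;> simp

/-- The element `z`. -/
def zD : D k d := mkD d 1 0 0 0

/-- The element `y`. -/
def yD : D k d := mkD d 0 1 0 0

theorem zz_eq : (zD : D k d) * zD = yD + d • (zD * yD) := by
  apply D_ext <;> simp [zD, yD]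

theorem yD_mem : (yD : D k d) ∈ A2 k (D k d) := by
  have h : (yD : D k d) = zD * zD - d • (zD * yD) := by rw [zz_eq]; abel
  rw [h]
  exact Submodule.sub_mem _ (mul_mem_A2 _ _) (Submodule.smul_mem _ _ (mul_mem_A2 _ _))

end Model

noncomputable section Hom

variable {k : Type u} [CommRing k] {d : k}

variable {A : Type u} [NonUnitalNonAssocRing A] [Module k A] [IsScalarTower k A A]
  [SMulCommClass k A A]

/-- the linear map `D_d → A` with `z ↦ Z`, `y ↦ W` -/
def homL (Z W : A) (x : D k d) : A :=
  qa x • Z + (qc x • W + Z * evL Z W (qf x) + evR Z W (qg x) * Z)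

/-- its part in the span of products -/
def homP (Z W : A) (x : D k d) : A :=
  qc x • W + Z * evL Z W (qf x) + evR Z W (qg x) * Z

theorem homL_eq (Z W : A) (x : D k d) : homL Z W x = qa x • Z + homP Z W x := rfl

theorem homP_mem {Z W : A} (hW : W ∈ A2 k A) (x : D k d) : homP Z W x ∈ A2 k A :=
  Submodule.add_mem _ (Submodule.add_mem _ (Submodule.smul_mem _ _ hW)
    (mul_mem_A2 _ _)) (mul_mem_A2 _ _)

theorem Z_homP (hA : InVariety k (theIds k) A) {Z W : A} (hW : W ∈ A2 k A) (x : D k d) :
    Z * homP Z W x = Z * (qc x • W + Z * evL Z W (qf x)) := by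
  rw [homP, mul_add Z _ (evR Z W (qg x) * Z), left_right hA (evR_mem Z _ hW _), add_zero]

theorem homP_Z (hA : InVariety k (theIds k) A) {Z W : A} (hW : W ∈ A2 k A) (x : D k d) :
    homP Z W x * Z = (qc x • W + evR Z W (qg x) * Z) * Z := by
  rw [homP, add_mul, add_mul, right_left hA (evL_mem Z _ hW _), add_zero, ← add_mul]

theorem homL_mul (hA : InVariety k (theIds k) A) {Z W : A} (hW : W ∈ A2 k A)
    (hZ : Z * Z = W + d • (Z * W)) (x x' : D k d) :
    homL Z W (x * x') = homL Z W x * homL Z W x' := by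
  have h1 : homP Z W x * homP Z W x' = 0 := A2_mul_A2 hA (homP_mem hW x) (homP_mem hW x')
  have e3 : homL Z W x * homL Z W x' =
      (qa x * qa x') • (W + d • (Z * W)) + qa x • (Z * homP Z W x') +
        qa x' • (homP Z W x * Z) := by
    rw [homL_eq, homL_eq, add_mul, mul_add, mul_add, h1, add_zero, smul_mul_smul_comm,
      hZ, smul_mul_assoc, mul_smul_comm]
  rw [e3, Z_homP hA hW, homP_Z hA hW]
  simp only [homL, qa_mul, qc_mul, qf_mul, qg_mul, zero_smul, zero_add, map_add, C_mul]
  simp only [← smul_eq_C_mul, map_smul, map_add, evL_C, evR_C, evL_X_mul, evR_X_mul]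
  simp only [smul_add, mul_add, add_mul, mul_smul_comm, smul_mul_assoc, smul_smul]
  rw [mul_comm d (qa x * qa x'), mul_comm (qa x) (qa x')]
  abel

theorem homL_add (Z W : A) (x x' : D k d) : homL Z W (x + x') = homL Z W x + homL Z W x' := by
  simp only [homL, qa_add, qc_add, qf_add, qg_add, map_add, mul_add, add_mul, add_smul]
  abel

theorem homL_smul (Z W : A) (r : k) (x : D k d) : homL Z W (r • x) = r • homL Z W x := by
  simp only [homL, qa_smul, qc_smul, qf_smul, qg_smul, ← smul_eq_C_mul, map_smul, mul_smul_comm,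
    smul_mul_assoc, smul_add, mul_smul]

/-- the homomorphism `D_d → A` with `z ↦ Z`, `y ↦ W` -/
def homD (hA : InVariety k (theIds k) A) {Z W : A} (hW : W ∈ A2 k A)
    (hZ : Z * Z = W + d • (Z * W)) : D k d →ₙₐ[k] A where
  toFun := homL Z W
  map_smul' := fun c x => homL_smul Z W c x
  map_zero' := by
    have h := homL_smul Z W (0 : k) (0 : D k d)
    rw [zero_smul, zero_smul] at h
    exact h
  map_add' := homL_add Z W
  map_mul' := homL_mul hA hW hZ

theorem homD_apply (hA : InVariety k (theIds k) A) {Z W : A} (hW : W ∈ A2 k A)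
    (hZ : Z * Z = W + d • (Z * W)) (x : D k d) : homD hA hW hZ x = homL Z W x := rfl

theorem homL_z (Z W : A) : homL Z W (zD : D k d) = Z := by
  simp [homL, zD]

theorem homL_y (Z W : A) : homL Z W (yD : D k d) = W := by
  simp [homL, yD]

end Hom

noncomputable section Decomp

variable {k : Type u} [CommRing k] {d : k}

theorem zevL (f : k[X]) : (zD : D k d) * evL zD yD f = mkD d 0 0 f 0 := by
  induction f using Polynomial.induction_on' with
  | add p q hp hq =>
    rw [map_add, mul_add, hp, hq]
    apply D_ext <;> simp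
  | monomial n a =>
    induction n with
    | zero =>
      rw [monomial_zero_left, evL_C, mul_smul_comm]
      apply D_ext <;> simp [zD, yD]
    | succ n ih =>
      rw [show monomial (n + 1) a = X * monomial n a from (X_mul_monomial n a).symm, evL_X_mul, ih]
      apply D_ext <;> simp [zD]

theorem evRz (f : k[X]) : evR (zD : D k d) yD f * zD = mkD d 0 0 0 f := by
  induction f using Polynomial.induction_on' with
  | add p q hp hq =>
    rw [map_add, add_mul, hp, hq]
    apply D_ext <;> simp
  | monomial n a =>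
    induction n with
    | zero =>
      rw [monomial_zero_left, evR_C, smul_mul_assoc]
      apply D_ext <;> simp [zD, yD]
    | succ n ih =>
      rw [show monomial (n + 1) a = X * monomial n a from (X_mul_monomial n a).symm, evR_X_mul, ih]
      apply D_ext <;> simp [zD]

theorem homL_self (x : D k d) : homL (zD : D k d) yD x = x := by
  rw [homL, zevL, evRz]
  apply D_ext <;> simp [zD, yD]

/-- every homomorphism from `D_d` is determined by the images of `z` and `y` -/
theorem hom_eq {A : Type u} [NonUnitalNonAssocRing A] [Module k A] [IsScalarTower k A A]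
    [SMulCommClass k A A] (φ : D k d →ₙₐ[k] A) (x : D k d) : φ x = homL (φ zD) (φ yD) x := by
  conv_lhs => rw [← homL_self x]
  rw [homL, map_add, map_add, map_add, map_smul, map_smul, map_mul, map_mul, map_evL, map_evR]
  rfl

end Decomp

noncomputable section Retract

variable {k : Type u} [CommRing k]

section Gen

variable {A : Type u} [NonUnitalNonAssocRing A] [Module k A] [IsScalarTower k A A]
  [SMulCommClass k A A]

/-- The correction term. -/
def cor (d : k) (z y : A) : A :=
  -(d ^ 2 • (z * (z * z))) + d ^ 2 • (z * y) + d ^ 3 • (z * (z * y))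

/-- The element `Z`. -/
def bZ (d : k) (z y : A) : A := z + cor d z y

/-- The element `W`. -/
def bW (d : k) (z y : A) : A :=
  z * z - d • (z * (z * z)) + d ^ 2 • (z * (z * y)) + d ^ 2 • ((z * y) * z)

theorem cor_mem (d : k) (z y : A) : cor d z y ∈ A2 k A :=
  Submodule.add_mem _ (Submodule.add_mem _ (Submodule.neg_mem _
    (Submodule.smul_mem _ _ (mul_mem_A2 _ _)))
    (Submodule.smul_mem _ _ (mul_mem_A2 _ _))) (Submodule.smul_mem _ _ (mul_mem_A2 _ _))

theorem bW_mem (d : k) (z y : A) : bW d z y ∈ A2 k A :=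
  Submodule.add_mem _ (Submodule.add_mem _ (Submodule.sub_mem _ (mul_mem_A2 _ _)
    (Submodule.smul_mem _ _ (mul_mem_A2 _ _))) (Submodule.smul_mem _ _ (mul_mem_A2 _ _)))
    (Submodule.smul_mem _ _ (mul_mem_A2 _ _))

theorem bZ_sq (hA : InVariety k (theIds k) A) (d : k) (z y : A) :
    bZ d z y * bZ d z y = bW d z y + d • (bZ d z y * bW d z y) := by
  have h1 : cor d z y * cor d z y = 0 := A2_mul_A2 hA (cor_mem (k := k) d z y) (cor_mem d z y)
  have h5 : cor d z y * bW d z y = 0 := A2_mul_A2 hA (cor_mem (k := k) d z y) (bW_mem d z y)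
  have h2 : (z * (z * z)) * z = 0 := right_left hA (mul_mem_A2 z z) z z
  have h3 : (z * (z * y)) * z = 0 := right_left hA (mul_mem_A2 z y) z z
  have h4 : z * ((z * y) * z) = 0 := left_right hA (mul_mem_A2 z y) z z
  have e1 : bZ d z y * bZ d z y = z * z + z * cor d z y + cor d z y * z := by
    rw [bZ, add_mul, mul_add, mul_add, h1, add_zero]
  have e2 : cor d z y * z = d ^ 2 • ((z * y) * z) := by
    rw [cor, add_mul, add_mul, neg_mul, smul_mul_assoc, smul_mul_assoc, smul_mul_assoc, h2, h3,
      smul_zero, smul_zero, neg_zero, zero_add, add_zero]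
  have e3 : z * cor d z y = -(d ^ 2 • (z * (z * (z * z)))) + d ^ 2 • (z * (z * y)) +
      d ^ 3 • (z * (z * (z * y))) := by
    rw [cor, mul_add, mul_add, mul_neg, mul_smul_comm, mul_smul_comm, mul_smul_comm]
  have e4 : bZ d z y * bW d z y = z * (z * z) - d • (z * (z * (z * z))) +
      d ^ 2 • (z * (z * (z * y))) := by
    rw [bZ, add_mul, h5, add_zero, bW, mul_add, mul_add, mul_sub, mul_smul_comm, mul_smul_comm,
      mul_smul_comm, h4, smul_zero, add_zero]
  rw [e1, e2, e3, e4, bW, smul_add, smul_sub, smul_smul, smul_smul,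
    show d * d = d ^ 2 by ring, show d * d ^ 2 = d ^ 3 by ring]
  abel

/-- the section `D_d → A` -/
def sec (hA : InVariety k (theIds k) A) (d : k) (z y : A) : D k d →ₙₐ[k] A :=
  homD hA (bW_mem d z y) (bZ_sq hA d z y)

theorem map_bZ {A' : Type u} [NonUnitalNonAssocRing A'] [Module k A'] [IsScalarTower k A' A']
    [SMulCommClass k A' A'] (φ : A →ₙₐ[k] A') (d : k) (z y : A) :
    φ (bZ d z y) = bZ d (φ z) (φ y) := by
  simp only [bZ, cor, map_add, map_neg, map_mul, map_smul]

theorem map_bW {A' : Type u} [NonUnitalNonAssocRing A'] [Module k A'] [IsScalarTower k A' A']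
    [SMulCommClass k A' A'] (φ : A →ₙₐ[k] A') (d : k) (z y : A) :
    φ (bW d z y) = bW d (φ z) (φ y) := by
  simp only [bW, map_add, map_sub, map_mul, map_smul]

end Gen

theorem bZ_D (d : k) : bZ d (zD : D k d) yD = zD := by
  have h1 : (zD : D k d) * (zD * zD) = mkD d 0 0 (1 + X * C d) 0 := by
    apply D_ext <;> simp [zD]
  have h2 : (zD : D k d) * yD = mkD d 0 0 1 0 := by
    apply D_ext <;> simp [zD, yD]
  rw [bZ, cor, h1, h2]
  apply D_ext
  · simp [zD]
  · simp [zD]
  · simp only [qf_add, qf_neg, qf_smul, qf_mk, qf_mul, zD, qa_mk, qc_mk, C_pow]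
    simp only [mul_zero, C_0, C_1, zero_add, one_mul, C_mul]
    ring
  · simp [zD]

theorem bW_D (d : k) : bW d (zD : D k d) yD = yD := by
  have h1 : (zD : D k d) * (zD * zD) = mkD d 0 0 (1 + X * C d) 0 := by
    apply D_ext <;> simp [zD]
  have h2 : (zD : D k d) * yD = mkD d 0 0 1 0 := by
    apply D_ext <;> simp [zD, yD]
  rw [bW, sub_eq_add_neg, h1, h2]
  apply D_ext
  · simp [zD, yD]
  · simp [zD, yD]
  · simp only [qf_add, qf_neg, qf_smul, qf_mk, qf_mul, zD, yD, qa_mk, qc_mk, C_pow]
    simp only [mul_zero, C_0, C_1, zero_add, one_mul, C_mul, mul_one, zero_mul, add_zero]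
    ring
  · simp [zD, yD]

theorem pi_sec {A : Type u} [NonUnitalNonAssocRing A] [Module k A] [IsScalarTower k A A]
    [SMulCommClass k A A] (hA : InVariety k (theIds k) A) {d : k} (φ : A →ₙₐ[k] D k d) (z y : A)
    (hz : φ z = zD) (hy : φ y = yD) (x : D k d) : φ (sec hA d z y x) = x := by
  have h := hom_eq (φ.comp (sec hA d z y)) x
  have h1 : (φ.comp (sec hA d z y)) zD = zD := by
    show φ (homL (bZ d z y) (bW d z y) zD) = zD
    rw [homL_z, map_bZ, hz, hy, bZ_D]
  have h2 : (φ.comp (sec hA d z y)) yD = yD := by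
    show φ (homL (bZ d z y) (bW d z y) yD) = yD
    rw [homL_y, map_bW, hz, hy, bW_D]
  rw [h1, h2, homL_self] at h
  exact h

end Retract

noncomputable section Classify

variable {k : Type u} [CommRing k] {d e : k}

/-- The polynomial `c + X f`. -/
def lB (x : D k d) : k[X] := C (qc x) + X * qf x

/-- The polynomial `c + X g`. -/
def rB (x : D k d) : k[X] := C (qc x) + X * qg x

theorem lB_mul (x y : D k d) :
    lB (x * y) = C (qa x * qa y) * (1 + C d * X) + C (qa x) * X * lB y := by
  simp only [lB, qc_mul, qf_mul, C_mul]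
  ring

theorem rB_mul (x y : D k d) : rB (x * y) = C (qa x * qa y) + C (qa y) * X * rB x := by
  simp only [rB, qc_mul, qg_mul]
  ring

theorem lB_add (x y : D k d) : lB (x + y) = lB x + lB y := by
  simp only [lB, qc_add, qf_add, C_add]
  ring

theorem rB_add (x y : D k d) : rB (x + y) = rB x + rB y := by
  simp only [rB, qc_add, qg_add, C_add]
  ring

theorem lB_smul (r : k) (x : D k d) : lB (r • x) = C r * lB x := by
  simp only [lB, qc_smul, qf_smul, C_mul]
  ring

theorem rB_smul (r : k) (x : D k d) : rB (r • x) = C r * rB x := by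
  simp only [rB, qc_smul, qg_smul, C_mul]
  ring

theorem evL_props {b W : D k d} (hW : qa W = 0) (f : k[X]) :
    qa (evL b W f) = 0 ∧ lB (evL b W f) = f.comp (C (qa b) * X) * lB W := by
  induction f using Polynomial.induction_on' with
  | add p q hp hq =>
    rw [map_add, qa_add, lB_add, hp.1, hq.1, hp.2, hq.2, add_comp]
    exact ⟨add_zero _, by ring⟩
  | monomial n a =>
    induction n with
    | zero =>
      rw [monomial_zero_left, evL_C, qa_smul, lB_smul, hW, C_comp]
      exact ⟨mul_zero _, rfl⟩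
    | succ n ih =>
      rw [show monomial (n + 1) a = X * monomial n a from (X_mul_monomial n a).symm, evL_X_mul,
        lB_mul, ih.1, ih.2, mul_comp, X_comp]
      refine ⟨rfl, ?_⟩
      rw [mul_zero, C_0]
      ring

theorem evR_props {b W : D k d} (hW : qa W = 0) (f : k[X]) :
    qa (evR b W f) = 0 ∧ rB (evR b W f) = f.comp (C (qa b) * X) * rB W := by
  induction f using Polynomial.induction_on' with
  | add p q hp hq =>
    rw [map_add, qa_add, rB_add, hp.1, hq.1, hp.2, hq.2, add_comp]
    exact ⟨add_zero _, by ring⟩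
  | monomial n a =>
    induction n with
    | zero =>
      rw [monomial_zero_left, evR_C, qa_smul, rB_smul, hW, C_comp]
      exact ⟨mul_zero _, rfl⟩
    | succ n ih =>
      rw [show monomial (n + 1) a = X * monomial n a from (X_mul_monomial n a).symm, evR_X_mul,
        rB_mul, ih.1, ih.2, mul_comp, X_comp]
      refine ⟨rfl, ?_⟩
      rw [zero_mul, C_0]
      ring

theorem qa_homL {b W : D k e} (hW : qa W = 0) (x : D k d) : qa (homL b W x) = qa x * qa b := by
  rw [homL, qa_add, qa_add, qa_add, qa_smul, qa_smul, qa_mul, qa_mul, hW]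
  ring

theorem lB_homL {b W : D k e} (hW : qa W = 0) (x : D k d) :
    lB (homL b W x) = C (qa x) * lB b + (lB x).comp (C (qa b) * X) * lB W := by
  have h1 := evL_props hW (b := b) (qf x)
  have h2 := evR_props hW (b := b) (qg x)
  rw [homL, lB_add, lB_add, lB_add, lB_smul, lB_smul, lB_mul, lB_mul, h1.1, h1.2, h2.1]
  simp only [lB, add_comp, C_comp, mul_comp, X_comp, mul_zero, zero_mul, C_0]
  ring

theorem rB_homL {b W : D k e} (hW : qa W = 0) (x : D k d) :
    rB (homL b W x) = C (qa x) * rB b + (rB x).comp (C (qa b) * X) * rB W := by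
  have h1 := evL_props hW (b := b) (qf x)
  have h2 := evR_props hW (b := b) (qg x)
  rw [homL, rB_add, rB_add, rB_add, rB_smul, rB_smul, rB_mul, rB_mul, h1.1, h2.1, h2.2]
  simp only [rB, add_comp, C_comp, mul_comp, X_comp, mul_zero, zero_mul, C_0]
  ring

theorem qa_img_y (θ : D k d →ₙₐ[k] D k e) : qa (θ yD) = 0 := by
  have h : (yD : D k d) = zD * zD - d • (zD * yD) := by rw [zz_eq]; abel
  rw [h, map_sub, map_smul, map_mul, map_mul, sub_eq_add_neg, qa_add, qa_neg, qa_smul, qa_mul,
    qa_mul]
  ring

/-- a surjection `D_d → D_e` exists only if `e` is `d` times a unit -/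
theorem assoc_of_surj [IsDomain k] (θ : D k d →ₙₐ[k] D k e) (hθ : Function.Surjective θ) :
    ∃ t : k, IsUnit t ∧ e = d * t := by
  set b := θ zD with hb
  set W := θ yD with hWdef
  have hW : qa W = 0 := qa_img_y θ
  have hform : ∀ x, θ x = homL b W x := fun x => hom_eq θ x
  obtain ⟨x1, hx1⟩ := hθ zD
  have hunit : qa x1 * qa b = 1 := by
    rw [← qa_homL hW x1, ← hform, hx1]; rfl
  have ht : IsUnit (qa b) := IsUnit.of_mul_eq_one_right _ hunit
  have ht0 : qa b ≠ 0 := ht.ne_zero
  obtain ⟨x2, hx2⟩ := hθ yD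
  have hx2a : qa x2 = 0 := by
    have h1 : qa x2 * qa b = 0 := by
      rw [← qa_homL hW x2, ← hform, hx2]; rfl
    rcases mul_eq_zero.1 h1 with h | h
    · exact h
    · exact absurd h ht0
  have hl : (lB x2).comp (C (qa b) * X) * lB W = 1 := by
    have h1 := lB_homL hW (b := b) x2
    rw [← hform, hx2, hx2a, C_0, zero_mul, zero_add] at h1
    rw [← h1]; simp [lB, yD]
  have hr : (rB x2).comp (C (qa b) * X) * rB W = 1 := by
    have h1 := rB_homL hW (b := b) x2
    rw [← hform, hx2, hx2a, C_0, zero_mul, zero_add] at h1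
    rw [← h1]; simp [rB, yD]
  have hdl : natDegree (lB W) = 0 := natDegree_eq_zero_of_isUnit (IsUnit.of_mul_eq_one_right _ hl)
  have hdr : natDegree (rB W) = 0 := natDegree_eq_zero_of_isUnit (IsUnit.of_mul_eq_one_right _ hr)
  have el1 : (lB W).coeff 1 = 0 := coeff_eq_zero_of_natDegree_lt (by rw [hdl]; exact one_pos)
  have er1 : (rB W).coeff 1 = 0 := coeff_eq_zero_of_natDegree_lt (by rw [hdr]; exact one_pos)
  have hrel : b * b = W + d • (b * W) := by
    rw [hb, hWdef, ← map_mul, ← map_mul, ← map_smul, ← map_add, ← zz_eq]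
  have hL := congrArg lB hrel
  have hR := congrArg rB hrel
  rw [lB_add, lB_smul, lB_mul, lB_mul, hW] at hL
  rw [rB_add, rB_smul, rB_mul, rB_mul, hW] at hR
  have c0 : ∀ x : D k e, (lB x).coeff 0 = qc x := fun x => by simp [lB]
  have c0' : ∀ x : D k e, (rB x).coeff 0 = qc x := fun x => by simp [rB]
  have hL1 := congrArg (fun p : k[X] => p.coeff 1) hL
  have hR0 := congrArg (fun p : k[X] => p.coeff 0) hR
  have hR1 := congrArg (fun p : k[X] => p.coeff 1) hR
  have m1 : ∀ (r : k) (p : k[X]), (C r * X * p).coeff 1 = r * p.coeff 0 := by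
    intro r p
    rw [mul_assoc, coeff_C_mul, coeff_X_mul]
  have m0 : ∀ (r : k) (p : k[X]), (C r * X * p).coeff 0 = 0 := by
    intro r p
    rw [mul_assoc, coeff_C_mul, coeff_X_mul_zero, mul_zero]
  simp only [mul_zero, zero_mul, C_0, zero_add, add_zero, coeff_add, coeff_C_mul, m1, m0, c0, c0',
    el1, er1, coeff_C_zero, coeff_C_succ, coeff_one, coeff_X_one, mul_one, coeff_C] at hL1 hR0 hR1
  simp at hL1 hR0 hR1
  have hcb : qc b = 0 := by
    rcases hR1 with h | h
    · exact absurd h ht0
    · exact h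
  refine ⟨qa b, ht, ?_⟩
  rw [hcb, mul_zero, add_zero, ← hR0] at hL1
  have h5 : qa b * qa b * (e - d * qa b) = 0 := by linear_combination hL1
  rcases mul_eq_zero.1 h5 with h | h
  · exact absurd (mul_self_eq_zero.1 h) ht0
  · exact sub_eq_zero.1 h

end Classify

noncomputable section Iso

variable {k : Type u} [CommRing k] {d e : k}

/-- for a unit `u` there is a bijective homomorphism `D_d → D_(d u)` -/
theorem iso_of_unit (u u' : k) (huu : u * u' = 1) (he : e = d * u) :
    ∃ θ : D k d →ₙₐ[k] D k e, Function.Bijective θ := by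
  have hW1 : (u ^ 2 • yD : D k e) ∈ A2 k (D k e) := Submodule.smul_mem _ _ yD_mem
  have hZ1 : (u • zD : D k e) * (u • zD) = u ^ 2 • yD + d • ((u • zD) * (u ^ 2 • yD)) := by
    rw [smul_mul_smul_comm, smul_mul_smul_comm, zz_eq, smul_add, smul_smul, smul_smul, he]
    rw [show u * u = u ^ 2 by ring, show u ^ 2 * (d * u) = d * (u * u ^ 2) by ring]
  have hW2 : (u' ^ 2 • yD : D k d) ∈ A2 k (D k d) := Submodule.smul_mem _ _ yD_mem
  have hd : d = e * u' := by rw [he, mul_assoc, huu, mul_one]
  have hZ2 : (u' • zD : D k d) * (u' • zD) = u' ^ 2 • yD + e • ((u' • zD) * (u' ^ 2 • yD)) := by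
    rw [smul_mul_smul_comm, smul_mul_smul_comm, zz_eq, smul_add, smul_smul, smul_smul]
    rw [show u' * u' = u' ^ 2 by ring,
      show u' ^ 2 * d = e * (u' * u' ^ 2) by
        conv_lhs => rw [hd]
        ring]
  let θ : D k d →ₙₐ[k] D k e := homD D_inVariety hW1 hZ1
  let ψ : D k e →ₙₐ[k] D k d := homD D_inVariety hW2 hZ2
  have t1 : θ zD = u • zD := homL_z _ _
  have t2 : θ yD = u ^ 2 • yD := homL_y _ _
  have p1 : ψ zD = u' • zD := homL_z _ _
  have p2 : ψ yD = u' ^ 2 • yD := homL_y _ _
  have i1 : ∀ x, ψ (θ x) = x := by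
    intro x
    have h := hom_eq (ψ.comp θ) x
    have h1 : (ψ.comp θ) zD = zD := by
      show ψ (θ zD) = zD
      rw [t1, map_smul, p1, smul_smul, huu, one_smul]
    have h2 : (ψ.comp θ) yD = yD := by
      show ψ (θ yD) = yD
      rw [t2, map_smul, p2, smul_smul, ← mul_pow, huu, one_pow, one_smul]
    rw [h1, h2, homL_self] at h
    exact h
  have i2 : ∀ x, θ (ψ x) = x := by
    intro x
    have h := hom_eq (θ.comp ψ) x
    have h1 : (θ.comp ψ) zD = zD := by
      show θ (ψ zD) = zD
      rw [p1, map_smul, t1, smul_smul, mul_comm, huu, one_smul]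
    have h2 : (θ.comp ψ) yD = yD := by
      show θ (ψ yD) = yD
      rw [p2, map_smul, t2, smul_smul, ← mul_pow, mul_comm u' u, huu, one_pow, one_smul]
    rw [h1, h2, homL_self] at h
    exact h
  exact ⟨θ, Function.bijective_iff_has_inverse.2 ⟨ψ, i1, i2⟩⟩

/-- `D_0` is free on any one-element set -/
theorem D0_free (Y : Type v) [Unique Y] :
    IsFreeOn k (theIds k) (D k (0 : k)) (fun _ : Y => zD) := by
  refine ⟨D_inVariety, ?_⟩
  intro A _ _ _ _ hA v
  have hZ : v default * v default = v default * v default +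
      (0 : k) • (v default * (v default * v default)) := by rw [zero_smul, add_zero]
  refine ⟨homD hA (mul_mem_A2 _ _) hZ, fun y => ?_, fun ψ hψ => ?_⟩
  · show homL _ _ zD = v y
    rw [homL_z, Subsingleton.elim y default]
  · apply NonUnitalAlgHom.ext
    intro x
    rw [hom_eq ψ x]
    have h1 : ψ zD = v default := hψ default
    have h2 : ψ yD = v default * v default := by
      have h : (yD : D k (0 : k)) = zD * zD := by rw [zz_eq, zero_smul, add_zero]
      rw [h, map_mul, h1]
    rw [h1, h2]
    rfl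

theorem hom_Z0 (φ : D k d →ₙₐ[k] Z0 k) (x : D k d) : φ x = qa x • φ zD := by
  have hm : ∀ a b : D k d, φ (a * b) = 0 := fun a b => by rw [map_mul, z0_mul]
  have hy : φ (yD : D k d) = 0 := by
    have h : (yD : D k d) = zD * zD - d • (zD * yD) := by rw [zz_eq]; abel
    rw [h, map_sub, map_smul, hm, hm, smul_zero, sub_zero]
  rw [hom_eq φ x, hy, homL]
  simp [z0_mul]

/-- free algebras on the same set are isomorphic -/
theorem free_unique {I : Set (FreeNonUnitalNonAssocAlgebra k ℕ)} {Y : Type v} {F G : Type u}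
    [NonUnitalNonAssocRing F]
    [Module k F] [IsScalarTower k F F] [SMulCommClass k F F] [NonUnitalNonAssocRing G]
    [Module k G] [IsScalarTower k G G] [SMulCommClass k G G] {j : Y → F} {j' : Y → G}
    (h : IsFreeOn k I F j) (h' : IsFreeOn k I G j') :
    ∃ (θ : F →ₙₐ[k] G) (ψ : G →ₙₐ[k] F), (∀ x, ψ (θ x) = x) ∧ ∀ x, θ (ψ x) = x := by
  obtain ⟨θ, hθ, -⟩ := h.univ G h'.mem j'
  obtain ⟨ψ, hψ, -⟩ := h'.univ F h.mem j
  refine ⟨θ, ψ, fun x => ?_, fun x => ?_⟩
  · obtain ⟨a, -, ha⟩ := h.univ F h.mem j
    have h1 := ha (ψ.comp θ) (fun y => by show ψ (θ (j y)) = j y; rw [hθ, hψ])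
    have h2 := ha (NonUnitalAlgHom.id k F) (fun y => rfl)
    exact DFunLike.congr_fun (h1.trans h2.symm) x
  · obtain ⟨a, -, ha⟩ := h'.univ G h'.mem j'
    have h1 := ha (θ.comp ψ) (fun y => by show θ (ψ (j' y)) = j' y; rw [hψ, hθ])
    have h2 := ha (NonUnitalAlgHom.id k G) (fun y => rfl)
    exact DFunLike.congr_fun (h1.trans h2.symm) x

/-- `D_d` is not free for `d ≠ 0` -/
theorem D_not_free [IsDomain k] (hd : d ≠ 0) {Y : Type v} (j : Y → D k d) :
    ¬ IsFreeOn k (theIds k) (D k d) j := by
  classical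
  intro h
  by_cases hY : ∃ y1 y2 : Y, y1 ≠ y2
  · obtain ⟨y1, y2, hne⟩ := hY
    obtain ⟨φ, hφ, -⟩ := h.univ (Z0 k) Z0_inVariety (fun y => toZ (if y = y1 then 1 else 0))
    obtain ⟨ψ, hψ, -⟩ := h.univ (Z0 k) Z0_inVariety (fun y => toZ (if y = y2 then 1 else 0))
    have a1 : qa (j y1) * ofZ (φ zD) = 1 := by
      rw [← ofZ_smul, ← hom_Z0, hφ y1, ofZ_toZ, if_pos rfl]
    have a2 : qa (j y2) * ofZ (φ zD) = 0 := by
      rw [← ofZ_smul, ← hom_Z0, hφ y2, ofZ_toZ, if_neg (fun h => hne h.symm)]
    have a3 : qa (j y2) * ofZ (ψ zD) = 1 := by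
      rw [← ofZ_smul, ← hom_Z0, hψ y2, ofZ_toZ, if_pos rfl]
    rcases mul_eq_zero.1 a2 with h5 | h5
    · rw [h5, zero_mul] at a3
      exact zero_ne_one a3
    · rw [h5, mul_zero] at a1
      exact zero_ne_one a1
  · push Not at hY
    rcases isEmpty_or_nonempty Y with hE | ⟨⟨y0⟩⟩
    · have h1 := mem_of_gen h (⊥ : NonUnitalSubalgebra k (D k d)) (fun y => (hE.false y).elim) zD
      rw [NonUnitalAlgebra.mem_bot] at h1
      have h2 : (1 : k) = 0 := congrArg (fun x : D k d => qa x) h1
      exact one_ne_zero h2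
    · haveI : Unique Y := ⟨⟨y0⟩, fun y => hY y y0⟩
      obtain ⟨θ, ψ, h1, h2⟩ := free_unique h (D0_free (k := k) Y)
      obtain ⟨t, ht, h3⟩ := assoc_of_surj θ (fun x => ⟨ψ x, h2 x⟩)
      rcases mul_eq_zero.1 h3.symm with h4 | h4
      · exact hd h4
      · exact ht.ne_zero h4

/-- the idempotent endomorphisms of `D_0` are `0` and the identity -/
theorem D0_idem [IsDomain k] (E : D k (0 : k) →ₙₐ[k] D k (0 : k)) (hE : ∀ x, E (E x) = E x) :
    (∀ x, E x = 0) ∨ ∀ x, E x = x := by
  set b := E zD with hb
  set W := E yD with hWd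
  have hW : qa W = 0 := qa_img_y E
  have hy : (yD : D k (0 : k)) = zD * zD := by rw [zz_eq, zero_smul, add_zero]
  have hbb : W = b * b := by rw [hWd, hy, map_mul]
  have hform : ∀ x, E x = homL b W x := fun x => hom_eq E x
  have h1 : qa b * qa b = qa b := by
    have h2 := congrArg qa (hE zD)
    rw [← hb, hform, qa_homL hW] at h2
    exact h2
  have h2 : qa b = 0 ∨ qa b = 1 := by
    have h3 : qa b * (qa b - 1) = 0 := by linear_combination h1
    rcases mul_eq_zero.1 h3 with h | h
    · exact Or.inl h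
    · exact Or.inr (sub_eq_zero.1 h)
  rcases h2 with h0 | h0
  · left
    have hW0 : W = 0 := by
      rw [hbb]
      apply D_ext <;> simp [h0]
    have hL0 : ∀ (c : D k (0 : k)) (f : k[X]), evL (k := k) c (0 : D k (0 : k)) f = 0 :=
      fun c f => by simp [evL]
    have hR0 : ∀ (c : D k (0 : k)) (f : k[X]), evR (k := k) c (0 : D k (0 : k)) f = 0 :=
      fun c f => by simp [evR]
    have hb0 : b = 0 := by
      have h3 : E b = b := hE zD
      rw [hform b, hW0, homL, hL0, hR0, h0] at h3
      rw [← h3]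
      simp
    intro x
    rw [hform x, hW0, hb0, homL, hL0, hR0]
    simp
  · right
    have hlW : lB W = 1 + X * lB b := by
      rw [hbb, lB_mul, h0]; simp
    have hrW : rB W = 1 + X * rB b := by
      rw [hbb, rB_mul, h0]; simp
    have hl0 : lB W ≠ 0 := by
      intro h
      rw [hlW] at h
      have := congrArg (fun p : k[X] => p.coeff 0) h
      simp at this
    have hr0 : rB W ≠ 0 := by
      intro h
      rw [hrW] at h
      have := congrArg (fun p : k[X] => p.coeff 0) h
      simp at this
    have hinj : ∀ x, E x = 0 → x = 0 := by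
      intro x hx
      have e0 : qa x = 0 := by
        have h3 := qa_homL hW (b := b) x
        rw [← hform, hx, h0, mul_one] at h3
        exact h3.symm
      have e1 := lB_homL hW (b := b) x
      have e2 := rB_homL hW (b := b) x
      rw [← hform, hx, e0, h0, C_0, zero_mul, zero_add, C_1, one_mul, comp_X] at e1 e2
      have z1 : lB (0 : D k (0 : k)) = 0 := by simp [lB]
      have z2 : rB (0 : D k (0 : k)) = 0 := by simp [rB]
      rw [z1] at e1
      rw [z2] at e2
      have l0 : lB x = 0 := by
        rcases mul_eq_zero.1 e1.symm with h | h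
        · exact h
        · exact absurd h hl0
      have r0 : rB x = 0 := by
        rcases mul_eq_zero.1 e2.symm with h | h
        · exact h
        · exact absurd h hr0
      have c0 : qc x = 0 := by
        have := congrArg (fun p : k[X] => p.coeff 0) l0
        simpa [lB] using this
      rw [lB, c0, C_0, zero_add] at l0
      rw [rB, c0, C_0, zero_add] at r0
      refine D_ext e0 c0 ?_ ?_
      · rcases mul_eq_zero.1 l0 with h | h
        · exact absurd h X_ne_zero
        · exact h
      · rcases mul_eq_zero.1 r0 with h | h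
        · exact absurd h X_ne_zero
        · exact h
    intro x
    have h3 : E (E x - x) = 0 := by rw [map_sub, hE, sub_self]
    exact sub_eq_zero.1 (hinj _ h3)

end Iso

noncomputable section Final

variable {k : Type u} [CommRing k]

/-- algebras of rank at most one have only the trivial idempotent endomorphisms -/
theorem rank_le_one [IsDomain k] {F : Type u} [NonUnitalNonAssocRing F] [Module k F]
    [IsScalarTower k F F] [SMulCommClass k F F] {Y : Type v} {ι : Y → F}
    (h : IsFreeOn k (theIds k) F ι) (hY : Subsingleton Y) (E : F →ₙₐ[k] F)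
    (hE : ∀ x, E (E x) = E x) : (∀ x, E x = 0) ∨ ∀ x, E x = x := by
  rcases isEmpty_or_nonempty Y with hemp | ⟨⟨y0⟩⟩
  · left
    intro x
    have h1 := mem_of_gen h (⊥ : NonUnitalSubalgebra k F) (fun y => (hemp.false y).elim) (E x)
    rwa [NonUnitalAlgebra.mem_bot] at h1
  · haveI : Unique Y := ⟨⟨y0⟩, fun y => hY.elim y y0⟩
    obtain ⟨θ, ψ, h1, h2⟩ := free_unique h (D0_free (k := k) Y)
    have h3 := D0_idem ((θ.comp E).comp ψ) (fun x => by
      show θ (E (ψ (θ (E (ψ x))))) = θ (E (ψ x))
      rw [h1, hE])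
    rcases h3 with h3 | h3
    · left
      intro x
      have h4 : θ (E (ψ (θ x))) = 0 := h3 (θ x)
      rw [h1] at h4
      have h5 := congrArg ψ h4
      rwa [h1, map_zero] at h5
    · right
      intro x
      have h4 : θ (E (ψ (θ x))) = θ x := h3 (θ x)
      rw [h1] at h4
      have h5 := congrArg ψ h4
      rwa [h1, h1] at h5

/-- algebras of rank at least two retract onto every `D_d` -/
theorem retract_D {F : Type u} [NonUnitalNonAssocRing F] [Module k F]
    [IsScalarTower k F F] [SMulCommClass k F F] {Y : Type v} {ι : Y → F}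
    (h : IsFreeOn k (theIds k) F ι) {y0 y1 : Y} (hne : y0 ≠ y1) (d : k) :
    ∃ E : F →ₙₐ[k] F, (∀ x, E (E x) = E x) ∧
      ∃ (ρ : NonUnitalAlgHom.range E →ₙₐ[k] D k d) (σ : D k d →ₙₐ[k] NonUnitalAlgHom.range E),
        (∀ x, ρ (σ x) = x) ∧ ∀ x, σ (ρ x) = x := by
  classical
  obtain ⟨φ, hφ, -⟩ := h.univ (D k d) D_inVariety (fun y => if y = y0 then zD else yD)
  have h1 : φ (ι y0) = zD := by rw [hφ, if_pos rfl]
  have h2 : φ (ι y1) = yD := by rw [hφ, if_neg (fun h => hne h.symm)]
  have hps : ∀ x, φ (sec h.mem d (ι y0) (ι y1) x) = x := pi_sec h.mem φ _ _ h1 h2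
  refine ⟨(sec h.mem d (ι y0) (ι y1)).comp φ, fun x => ?_,
    φ.comp (NonUnitalSubalgebraClass.subtype _),
    NonUnitalAlgHom.codRestrict (sec h.mem d (ι y0) (ι y1)) _ (fun b => ?_), fun x => ?_,
    fun x => ?_⟩
  · show sec h.mem d (ι y0) (ι y1) (φ (sec h.mem d (ι y0) (ι y1) (φ x))) =
      sec h.mem d (ι y0) (ι y1) (φ x)
    rw [hps]
  · refine ⟨sec h.mem d (ι y0) (ι y1) b, ?_⟩
    show sec h.mem d (ι y0) (ι y1) (φ (sec h.mem d (ι y0) (ι y1) b)) =
      sec h.mem d (ι y0) (ι y1) b
    rw [hps]
  · exact hps x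
  · apply Subtype.ext
    obtain ⟨_, a, rfl⟩ := x
    show sec h.mem d (ι y0) (ι y1) (φ (sec h.mem d (ι y0) (ι y1) (φ a))) =
      sec h.mem d (ι y0) (ι y1) (φ a)
    rw [hps]

end Final

section Statement

variable (k : Type u) [CommRing k]

/-- `V`-free algebras exist on every set. -/
def FreeExist : Prop :=
  ∀ Y : Type, ∃ (F : Type u) (_ : NonUnitalNonAssocRing F) (_ : Module k F)
    (_ : IsScalarTower k F F) (_ : SMulCommClass k F F) (ι : Y → F), IsFreeOn k (theIds k) F ι

variable (F : Type u) [NonUnitalNonAssocRing F] [Module k F] [IsScalarTower k F F]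
  [SMulCommClass k F F]

/-- The idempotent endomorphisms of `F` are `0` and the identity. -/
def OnlyTrivial : Prop :=
  ∀ E : F →ₙₐ[k] F, (∀ x, E (E x) = E x) → (∀ x, E x = 0) ∨ ∀ x, E x = x

variable {k F}

/-- The image of the endomorphism `E` is `V`-free (on some set). -/
def ImageFree (E : F →ₙₐ[k] F) : Prop :=
  ∃ (Z : Type w) (j : Z → NonUnitalAlgHom.range E),
    IsFreeOn k (theIds k) (NonUnitalAlgHom.range E) j

/-- The images of the endomorphisms `E` and `E'` are isomorphic algebras. -/
def IsoImages (E E' : F →ₙₐ[k] F) : Prop :=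
  ∃ θ : NonUnitalAlgHom.range E →ₙₐ[k] NonUnitalAlgHom.range E', Function.Bijective θ

variable (k F)

/-- `F` has idempotent endomorphisms `E d`, `d ∈ k`, such that the image of `E d` is `V`-free if and
only if `d = 0`, and the images of `E d` and `E d'` are isomorphic if and only if `d` and `d'` are
associates. -/
def HasFamily : Prop :=
  ∃ E : k → (F →ₙₐ[k] F), (∀ d x, E d (E d x) = E d x) ∧
    (∀ d, ImageFree.{u, w} (E d) ↔ d = 0) ∧ ∀ d d', IsoImages (E d) (E d') ↔ Associated d d'

end Statement

theorem hasFamily {k : Type u} [CommRing k] [IsDomain k] {F : Type u} [NonUnitalNonAssocRing F]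
    [Module k F] [IsScalarTower k F F] [SMulCommClass k F F] {Y : Type v} {ι : Y → F}
    (h : IsFreeOn k (theIds k) F ι) (hY : Nontrivial Y) : HasFamily.{u, w} k F := by
  obtain ⟨y0, y1, hne⟩ := hY
  choose E hE ρ σ h1 h2 using fun d : k => retract_D h hne d
  refine ⟨E, hE, fun d => ⟨?_, ?_⟩, fun d d' => ⟨?_, ?_⟩⟩
  · rintro ⟨Z, j, hj⟩
    by_contra hd
    exact D_not_free hd _ (transport hj (ρ d) (σ d) (h1 d) (h2 d))
  · rintro rfl
    exact ⟨PUnit, _, transport (D0_free (k := k) PUnit) (σ 0) (ρ 0) (h2 0) (h1 0)⟩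
  · rintro ⟨θ, hθ⟩
    obtain ⟨t, ht, h3⟩ := assoc_of_surj ((ρ d').comp (θ.comp (σ d))) (fun x => by
      obtain ⟨a, ha⟩ := hθ.2 (σ d' x)
      refine ⟨ρ d a, ?_⟩
      show ρ d' (θ (σ d (ρ d a))) = x
      rw [h2, ha, h1])
    obtain ⟨u, rfl⟩ := ht
    exact ⟨u, h3.symm⟩
  · rintro ⟨u, hu⟩
    obtain ⟨θ, hθ⟩ := iso_of_unit (d := d) (e := d') (u : k) (↑u⁻¹ : k) (by simp) hu.symm
    refine ⟨((σ d').comp (θ.comp (ρ d))), ?_⟩
    have b1 : Function.Bijective (ρ d) :=
      Function.bijective_iff_has_inverse.2 ⟨σ d, h2 d, h1 d⟩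
    have b2 : Function.Bijective (σ d') :=
      Function.bijective_iff_has_inverse.2 ⟨ρ d', h1 d', h2 d'⟩
    exact b2.comp (hθ.comp b1)

/-- **Retracts of relatively free algebras.** Let `k` be an integral domain (for instance a
principal ideal domain) and let `V` be the variety of `k`-algebras defined by the three multilinear
identities `(x0 x1)(x2 x3) = 0`, `x0 ((x1 x2) x3) = 0`, `(x0 (x1 x2)) x3 = 0`.

* Free algebras of `V` on every set exist.
* The only retracts of a `V`-free algebra on at most one generator are `0` and the algebra.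
* Every `V`-free algebra on at least two generators has retracts `R_d` (`d ∈ k`), the images of
  idempotent endomorphisms `E d`, such that `R_d` is `V`-free if and only if `d = 0`, and `R_d`,
  `R_d'` are isomorphic if and only if `d` and `d'` are associates. -/
theorem result (k : Type u) [CommRing k] [IsDomain k] :
    (∀ f ∈ theIds k, IsMultilinear k f) ∧ FreeExist k ∧
    ∀ (F : Type u) [NonUnitalNonAssocRing F] [Module k F] [IsScalarTower k F F]
      [SMulCommClass k F F] (Y : Type v) (ι : Y → F), IsFreeOn k (theIds k) F ι →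
      (Subsingleton Y → OnlyTrivial k F) ∧ (Nontrivial Y → HasFamily.{u, w} k F) := by
  refine ⟨theIds_multilinear k, fun Y => ?_, ?_⟩
  · exact ⟨FreeV (theIds k) Y, inferInstance, inferInstance, inferInstance, inferInstance, _,
      freeV_isFree (theIds k) Y⟩
  · intro F _ _ _ _ Y ι h
    exact ⟨fun hY E hE => rank_le_one h hY E hE, fun hY => hasFamily h hY⟩

end Pool.Agent.Results.MP_ce47b3_al.RankThreshold
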